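import Pool.Agent.Helper26.KN.Goals

/-! Existence of the power series `Z` with `Z' = q H Z`. -/

namespace KN.PkZX

open Finset PowerSeries Pool.Agent.Helper97.RCK KN

/-- The coefficients of `Z`. -/
noncomputable def zc (q : ℝ) (h : ℕ → ℝ) : ℕ → ℝ
  | 0 => 1
  | R + 1 => q / (R + 1) * ∑ i : Fin (R + 1), h (R - i) * zc q h i

theorem zx : G_ZX := by
  intro q H
  set h : ℕ → ℝ := fun n => coeff n H with hh
  refine ⟨PowerSeries.mk (zc q h), ?_, ?_⟩
  · rw [← coeff_zero_eq_constantCoeff_apply, coeff_mk, zc]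
  · ext R
    rw [coeff_derivative, coeff_mk, coeff_C_mul, coeff_mul,
      Finset.Nat.sum_antidiagonal_eq_sum_range_succ_mk, zc]
    rw [← Finset.sum_range_reflect, Fin.sum_univ_eq_sum_range (fun i => h (R - i) * zc q h i)]
    have h1 : ((R : ℝ) + 1) ≠ 0 := by positivity
    field_simp
    congr 1
    refine Finset.sum_congr rfl fun i hi => ?_
    have hi' : i ≤ R := by simpa [Nat.lt_succ_iff] using hi
    simp only [coeff_mk, hh]
    have e1 : R + 1 - 1 - i = R - i := by omega
    have e2 : R - (R - i) = i := by omega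
    rw [e1, e2]

end KN.PkZX
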